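import Mathlib
import Pool.Agent.TH861.GL3.Main

/-! Places of an extension of number fields: completely split places. -/

set_option autoImplicit false

open NumberField IsDedekindDomain
open Pool.Agent.TH861.GL3

namespace Q239.GS

variable {K L : Type*} [Field K] [NumberField K] [Field L] [NumberField L] [Algebra K L]

/-- The place `v` of `K` splits completely in `L`: there are `[L : K]` places of `L` above `v`. -/
def SplitsIn (L : Type*) [Field L] [NumberField L] [Algebra K L] (v : HeightOneSpectrum (𝓞 K)) : Prop :=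
  (v.asIdeal.primesOver (𝓞 L)).ncard = Module.finrank K L

/-- the residue degree over `K` of the place `w` of `L` -/
noncomputable def deg (K : Type*) {L : Type*} [Field K] [NumberField K] [Field L] [NumberField L] [Algebra K L]
    (w : HeightOneSpectrum (𝓞 L)) : ℕ := w.asIdeal.inertiaDeg (𝓞 K)

/-- the ramification index over `K` of the place `w` of `L` -/
noncomputable def ram (K : Type*) {L : Type*} [Field K] [NumberField K] [Field L] [NumberField L] [Algebra K L]
    (w : HeightOneSpectrum (𝓞 L)) : ℕ := w.asIdeal.ramificationIdx (𝓞 K)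

instance lies (w : HeightOneSpectrum (𝓞 L)) : w.asIdeal.LiesOver (w.under (𝓞 K)).asIdeal :=
  ⟨rfl⟩

theorem qq_eq (w : HeightOneSpectrum (𝓞 L)) : qq w = qq (w.under (𝓞 K)) ^ deg K w := by
  unfold qq deg
  have hp : (w.under (𝓞 K)).asIdeal.IsPrime := (w.under (𝓞 K)).isPrime
  have hm : (w.under (𝓞 K)).asIdeal.IsMaximal := (w.under (𝓞 K)).isMaximal
  have hm2 : w.asIdeal.IsMaximal := w.isMaximal
  have := Ideal.absNorm_eq_pow_inertiaDeg'_of_liesOver w.asIdeal (w.under (𝓞 K)).asIdeal hp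
    (w.under (𝓞 K)).ne_bot
  rw [this, Ideal.inertiaDeg'_eq_inertiaDeg]

theorem deg_pos (w : HeightOneSpectrum (𝓞 L)) : 0 < deg K w := by
  have := w.isPrime
  exact w.asIdeal.inertiaDeg_pos (𝓞 K)

theorem ram_pos (w : HeightOneSpectrum (𝓞 L)) : 0 < ram K w := by
  have := w.isPrime
  exact w.asIdeal.ramificationIdx_pos (𝓞 K)

/-- the places of `L` above `v` -/
noncomputable def above (v : HeightOneSpectrum (𝓞 K)) :
    {w : HeightOneSpectrum (𝓞 L) // w.under (𝓞 K) = v} ≃ v.asIdeal.primesOver (𝓞 L) where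
  toFun w := ⟨w.1.asIdeal, w.1.isPrime, ⟨(congrArg HeightOneSpectrum.asIdeal w.2).symm⟩⟩
  invFun P := ⟨⟨P.1, P.2.1, by
    have := P.2.2
    exact Ideal.ne_bot_of_mem_primesOver v.ne_bot P.2⟩, by
    ext1
    exact (P.2.2.over).symm⟩
  left_inv w := by rfl
  right_inv P := by rfl

instance fin_primes (v : HeightOneSpectrum (𝓞 K)) : Finite (v.asIdeal.primesOver (𝓞 L)) := by
  have hm : v.asIdeal.IsMaximal := v.isMaximal
  exact (IsDedekindDomain.primesOver_finite v.asIdeal (𝓞 L)).to_subtype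

instance fin_above (v : HeightOneSpectrum (𝓞 K)) : Finite {w : HeightOneSpectrum (𝓞 L) // w.under (𝓞 K) = v} :=
  Finite.of_equiv _ (above v).symm

theorem card_above (v : HeightOneSpectrum (𝓞 K)) :
    Nat.card {w : HeightOneSpectrum (𝓞 L) // w.under (𝓞 K) = v} = (v.asIdeal.primesOver (𝓞 L)).ncard := by
  rw [Nat.card_congr (above v), Nat.card_coe_set_eq]

theorem sum_ef (v : HeightOneSpectrum (𝓞 K)) [Fintype (v.asIdeal.primesOver (𝓞 L))] :
    ∑ q : v.asIdeal.primesOver (𝓞 L), q.1.ramificationIdx (𝓞 K) * q.1.inertiaDeg (𝓞 K) = Module.finrank K L := by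
  have hp : v.asIdeal.IsPrime := v.isPrime
  rw [Ideal.sum_ramification_inertia_eq_finrank v.asIdeal (𝓞 L), IsFractionRing.finrank_eq (𝓞 K) K (𝓞 L) L]

theorem ef_pos {v : HeightOneSpectrum (𝓞 K)} (q : v.asIdeal.primesOver (𝓞 L)) :
    1 ≤ q.1.ramificationIdx (𝓞 K) * q.1.inertiaDeg (𝓞 K) := by
  have := q.2.1
  exact Nat.mul_pos (q.1.ramificationIdx_pos (𝓞 K)) (q.1.inertiaDeg_pos (𝓞 K))

theorem card_le (v : HeightOneSpectrum (𝓞 K)) :
    (v.asIdeal.primesOver (𝓞 L)).ncard ≤ Module.finrank K L := by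
  classical
  have : Fintype (v.asIdeal.primesOver (𝓞 L)) := Fintype.ofFinite _
  rw [← sum_ef v, ← Nat.card_coe_set_eq, Nat.card_eq_fintype_card]
  have h2 := Finset.sum_le_sum (s := (Finset.univ : Finset (v.asIdeal.primesOver (𝓞 L))))
    fun q _ => ef_pos q
  simpa using h2

theorem deg_of_split {v : HeightOneSpectrum (𝓞 K)} (hv : SplitsIn L v) (w : HeightOneSpectrum (𝓞 L))
    (hw : w.under (𝓞 K) = v) : deg K w = 1 := by
  classical
  have : Fintype (v.asIdeal.primesOver (𝓞 L)) := Fintype.ofFinite _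
  have h1 := sum_ef (L := L) v
  unfold SplitsIn at hv
  rw [← hv, ← Nat.card_coe_set_eq, Nat.card_eq_fintype_card] at h1
  have h2 : ∀ q ∈ (Finset.univ : Finset (v.asIdeal.primesOver (𝓞 L))),
      1 = q.1.ramificationIdx (𝓞 K) * q.1.inertiaDeg (𝓞 K) := by
    refine (Finset.sum_eq_sum_iff_of_le fun q _ => ef_pos q).1 ?_
    rw [h1]
    simp
  have h3 := h2 (above v ⟨w, hw⟩) (Finset.mem_univ _)
  exact Nat.eq_one_of_mul_eq_one_left h3.symm

theorem split_of_deg [IsGalois K L] (w : HeightOneSpectrum (𝓞 L)) (h1 : deg K w = 1) (h2 : ram K w = 1) :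
    SplitsIn L (w.under (𝓞 K)) := by
  have hp : (w.under (𝓞 K)).asIdeal.IsPrime := (w.under (𝓞 K)).isPrime
  have hm2 : w.asIdeal.IsPrime := w.isPrime
  have := Ideal.ncard_primesOver_mul_ramificationIdxIn_mul_inertiaDegIn (w.under (𝓞 K)).asIdeal (𝓞 L) Gal(L/K)
  rw [Ideal.ramificationIdxIn_eq_ramificationIdx _ w.asIdeal Gal(L/K),
    Ideal.inertiaDegIn_eq_inertiaDeg _ w.asIdeal Gal(L/K)] at this
  unfold deg at h1
  unfold ram at h2
  rw [h1, h2, mul_one, mul_one, IsGalois.card_aut_eq_finrank] at this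
  exact this

end Q239.GS
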