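import Mathlib
import Pool.Agent.Q239.GS.Alg
import Pool.Agent.TH949.RES.GL3
import Pool.Agent.Y816.GL3T.Main
import Pool.Agent.TH949.TX.GL3

/-! Transfer of sums over the places of `L` to sums over the places of `K`. -/

set_option autoImplicit false

open NumberField IsDedekindDomain Filter Topology
open Pool.Agent.TH861.GL3
open Pool.Agent.TH949.RES (count_large small_diverge small_diverge' tempered_of_small)
open Pool.Agent.TH949.TX (AdjointGL3)

namespace Q239.GS

variable {K L : Type*} [Field K] [NumberField K] [Field L] [NumberField L] [Algebra K L]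

/-- Let `S` and `T` be finite sets of places of `K` and of `L`. The Satake parameters `β w`, `w ∉ T`, are the base
change to `L` of the Satake parameters `α v`, `v ∉ S`. -/
structure IsBaseChange {S : Finset (HeightOneSpectrum (𝓞 K))} {T : Finset (HeightOneSpectrum (𝓞 L))}
    (α : PL S → Fin 3 → ℂ) (β : PL T → Fin 3 → ℂ) : Prop where
  /-- `T` consists of the places of `L` above the places in `S` -/
  mem_iff : ∀ w : HeightOneSpectrum (𝓞 L), w ∈ T ↔ w.under (𝓞 K) ∈ S
  /-- `S` contains the places of `K` which ramify in `L` -/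
  unramified : ∀ w : HeightOneSpectrum (𝓞 L), w ∉ T → ram K w = 1
  /-- the parameters at `w | v` are the powers of the parameters at `v` with exponent the residue degree -/
  eq : ∀ (v : PL S) (w : PL T), w.1.under (𝓞 K) = v.1 →
    Multiset.map (β w) Finset.univ.val = Multiset.map (fun i => α v i ^ deg K w.1) Finset.univ.val

variable {S : Finset (HeightOneSpectrum (𝓞 K))} {T : Finset (HeightOneSpectrum (𝓞 L))}
variable {α : PL S → Fin 3 → ℂ} {β : PL T → Fin 3 → ℂ}

/-- the place below -/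
noncomputable def dn (h : IsBaseChange α β) (w : PL T) : PL S := ⟨w.1.under (𝓞 K), fun hw => w.2 ((h.mem_iff w.1).2 hw)⟩

/-- the number of places above -/
noncomputable def nb (L : Type*) [Field L] [NumberField L] [Algebra K L] (v : PL S) : ℕ :=
  (v.1.asIdeal.primesOver (𝓞 L)).ncard

noncomputable def fibEquiv (h : IsBaseChange α β) (v : PL S) :
    {w : PL T // dn h w = v} ≃ {w : HeightOneSpectrum (𝓞 L) // w.under (𝓞 K) = v.1} where
  toFun w := ⟨w.1.1, congrArg Subtype.val w.2⟩
  invFun w := ⟨⟨w.1, fun hw => v.2 (by rw [← w.2]; exact (h.mem_iff w.1).1 hw)⟩, Subtype.ext w.2⟩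
  left_inv w := rfl
  right_inv w := rfl

theorem fib_finite (h : IsBaseChange α β) (v : PL S) : Finite {w : PL T // dn h w = v} :=
  Finite.of_equiv _ (fibEquiv h v).symm

theorem fib_card (h : IsBaseChange α β) (v : PL S) : Nat.card {w : PL T // dn h w = v} = nb L v := by
  rw [Nat.card_congr (fibEquiv h v), card_above]
  rfl

theorem fib_tsum (h : IsBaseChange α β) (v : PL S) (c : ℝ) :
    ∑' _ : {w : PL T // dn h w = v}, c = (nb L v : ℝ) * c := by
  have := fib_finite h v
  rw [tsum_const, fib_card, nsmul_eq_mul]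

theorem summable_dn (h : IsBaseChange α β) {F : PL S → ℝ} (hF : ∀ v, 0 ≤ F v) :
    Summable (fun w : PL T => F (dn h w)) ↔ Summable fun v : PL S => (nb L v : ℝ) * F v := by
  have hnn : ∀ x, 0 ≤ ((fun w : PL T => F (dn h w)) ∘ (Equiv.sigmaFiberEquiv (dn h))) x := fun x => hF _
  rw [← (Equiv.sigmaFiberEquiv (dn h)).summable_iff, summable_sigma_of_nonneg hnn]
  have e : ∀ v : PL S, (∑' w : {w : PL T // dn h w = v},
      ((fun w : PL T => F (dn h w)) ∘ (Equiv.sigmaFiberEquiv (dn h))) ⟨v, w⟩) = (nb L v : ℝ) * F v := by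
    intro v
    rw [← fib_tsum h v]
    refine tsum_congr fun w => ?_
    show F (dn h w.1) = F v
    rw [w.2]
  constructor
  · rintro ⟨-, h2⟩
    exact h2.congr fun v => (e v)
  · intro h2
    refine ⟨fun v => ?_, h2.congr fun v => (e v).symm⟩
    have := fib_finite h v
    exact summable_of_hasFiniteSupport (Set.toFinite _)

theorem tsum_dn (h : IsBaseChange α β) {F : PL S → ℝ} (hF : ∀ v, 0 ≤ F v) :
    ∑' w : PL T, F (dn h w) = ∑' v : PL S, (nb L v : ℝ) * F v := by
  by_cases hs : Summable (fun w : PL T => F (dn h w))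
  · have hs' := (Equiv.sigmaFiberEquiv (dn h)).summable_iff.2 hs
    have hnn : ∀ x, 0 ≤ ((fun w : PL T => F (dn h w)) ∘ (Equiv.sigmaFiberEquiv (dn h))) x := fun x => hF _
    have h3 := Summable.tsum_sigma' ((summable_sigma_of_nonneg hnn).1 hs').1 hs'
    have h4 := (Equiv.sigmaFiberEquiv (dn h)).tsum_eq (fun w : PL T => F (dn h w))
    rw [← h4]
    refine Eq.trans h3 (tsum_congr fun v => ?_)
    rw [← fib_tsum h v]
    refine tsum_congr fun w => ?_
    show F (dn h w.1) = F v
    rw [w.2]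
  · rw [tsum_eq_zero_of_not_summable hs, tsum_eq_zero_of_not_summable (fun h2 => hs ((summable_dn h hF).2 h2))]

theorem nb_le (v : PL S) : (nb L v : ℝ) ≤ (Module.finrank K L : ℝ) := by
  exact_mod_cast card_le (L := L) v.1

theorem nb_split {v : PL S} (hv : SplitsIn L v.1) : (nb L v : ℝ) = (Module.finrank K L : ℝ) := by
  exact_mod_cast hv

theorem qq_dn (h : IsBaseChange α β) (w : PL T) : (qq w.1 : ℝ) = (qq (dn h w).1 : ℝ) ^ deg K w.1 := by
  exact_mod_cast qq_eq (K := K) w.1

/-- parameters at a place of degree one -/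
theorem eq_one (h : IsBaseChange α β) {w : PL T} (hw : deg K w.1 = 1) :
    Multiset.map (β w) Finset.univ.val = Multiset.map (α (dn h w)) Finset.univ.val := by
  have := h.eq (dn h w) w rfl
  rw [hw] at this
  simpa using this

theorem ms_sum (f : Fin 3 → ℂ) {M : Type*} [AddCommMonoid M] (g : ℂ → M) :
    ∑ i, g (f i) = ((Multiset.map f Finset.univ.val).map g).sum := by
  rw [Multiset.map_map]
  rfl

theorem ms_forall (f : Fin 3 → ℂ) (P : ℂ → Prop) : (∀ i, P (f i)) ↔ ∀ z ∈ Multiset.map f Finset.univ.val, P z := by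
  constructor
  · intro h z hz
    obtain ⟨i, -, rfl⟩ := Multiset.mem_map.1 hz
    exact h i
  · intro h i
    exact h _ (Multiset.mem_map.2 ⟨i, Finset.mem_univ_val i, rfl⟩)

theorem ms_exists (f : Fin 3 → ℂ) (P : ℂ → Prop) : (∃ i, P (f i)) ↔ ∃ z ∈ Multiset.map f Finset.univ.val, P z := by
  constructor
  · rintro ⟨i, hi⟩
    exact ⟨_, Multiset.mem_map.2 ⟨i, Finset.mem_univ_val i, rfl⟩, hi⟩
  · rintro ⟨z, hz, hP⟩
    obtain ⟨i, -, rfl⟩ := Multiset.mem_map.1 hz
    exact ⟨i, hP⟩

theorem sum_eq (h : IsBaseChange α β) {w : PL T} (hw : deg K w.1 = 1) {M : Type*} [AddCommMonoid M] (g : ℂ → M) :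
    ∑ i, g (β w i) = ∑ i, g (α (dn h w) i) := by
  rw [ms_sum, ms_sum, eq_one h hw]

theorem forall_iff (h : IsBaseChange α β) {w : PL T} (hw : deg K w.1 = 1) (P : ℂ → Prop) :
    (∀ i, P (β w i)) ↔ ∀ i, P (α (dn h w) i) := by
  rw [ms_forall (β w), ms_forall (α (dn h w)), eq_one h hw]

theorem exists_iff (h : IsBaseChange α β) {w : PL T} (hw : deg K w.1 = 1) (P : ℂ → Prop) :
    (∃ i, P (β w i)) ↔ ∃ i, P (α (dn h w) i) := by
  rw [ms_exists (β w), ms_exists (α (dn h w)), eq_one h hw]

theorem deg_one_iff [IsGalois K L] (h : IsBaseChange α β) (w : PL T) : deg K w.1 = 1 ↔ SplitsIn L (dn h w).1 :=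
  ⟨fun h1 => split_of_deg w.1 h1 (h.unramified w.1 w.2), fun h1 => deg_of_split h1 w.1 rfl⟩

theorem two_le_deg {w : HeightOneSpectrum (𝓞 L)} (hw : deg K w ≠ 1) : 2 ≤ deg K w := by
  have := deg_pos (K := K) w
  omega

/-- every split place of `K` outside `S` has a place above it -/
theorem exists_above (h : IsBaseChange α β) {v : PL S} (hv : SplitsIn L v.1) : ∃ w : PL T, dn h w = v := by
  have h1 : 0 < Nat.card {w : PL T // dn h w = v} := by
    rw [fib_card]
    unfold nb
    rw [hv]
    exact Module.finrank_pos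
  obtain ⟨w⟩ := (Nat.card_pos_iff.1 h1).1
  exact ⟨w.1, w.2⟩

end Q239.GS
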