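import Mathlib
import Pool.Agent.Q239.GS.Trans

/-! Completely split places: divergence, the weighted comparison and the comparison at every scale. -/

set_option autoImplicit false

open NumberField IsDedekindDomain Filter Topology
open Pool.Agent.TH861.GL3
open Pool.Agent.TH949.RES (count_large small_diverge small_diverge' tempered_of_small AutomorphicGL3)
open Pool.Agent.TH949.TX (AdjointGL3)

namespace Q239.GS

variable {K L : Type*} [Field K] [NumberField K] [Field L] [NumberField L] [Algebra K L]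
variable {S : Finset (HeightOneSpectrum (𝓞 K))} {T : Finset (HeightOneSpectrum (𝓞 L))}
variable {α : PL S → Fin 3 → ℂ} {β : PL T → Fin 3 → ℂ}

theorem small_eq (h : IsBaseChange α β) {w : PL T} (hw : deg K w.1 = 1) : small β w = small α (dn h w) := by
  unfold small
  have := sum_eq h hw (fun z : ℂ => z)
  rw [this]

theorem rpow_deg (h : IsBaseChange α β) (w : PL T) (c : ℝ) :
    (qq w.1 : ℝ) ^ (-c) = (qq (dn h w).1 : ℝ) ^ (-(deg K w.1 * c)) := by
  have h0 := qq_pos (dn h w).1
  rw [qq_dn h w, ← Real.rpow_natCast, ← Real.rpow_mul h0.le]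
  congr 1
  ring

theorem rpow_one (h : IsBaseChange α β) {w : PL T} (hw : deg K w.1 = 1) (c : ℝ) :
    (qq w.1 : ℝ) ^ (-c) = (qq (dn h w).1 : ℝ) ^ (-c) := by
  rw [rpow_deg h w c, hw]
  simp

theorem rpow_two (h : IsBaseChange α β) {w : PL T} (hw : deg K w.1 ≠ 1) {c : ℝ} (hc : 0 ≤ c) :
    (qq w.1 : ℝ) ^ (-c) ≤ (qq (dn h w).1 : ℝ) ^ (-(2 * c)) := by
  rw [rpow_deg h w c]
  refine Real.rpow_le_rpow_of_exponent_le (one_lt_qq _).le (neg_le_neg ?_)
  refine mul_le_mul_of_nonneg_right ?_ hc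
  exact_mod_cast two_le_deg hw

theorem qq_rpow_nn (v : HeightOneSpectrum (𝓞 K)) (c : ℝ) : 0 ≤ (qq v : ℝ) ^ c := by
  have := (qq_pos v).le
  positivity

theorem summable_nb {F : PL S → ℝ} (hF : ∀ v, 0 ≤ F v) (hs : Summable F) :
    Summable fun v : PL S => (nb L v : ℝ) * F v :=
  Summable.of_nonneg_of_le (fun v => mul_nonneg (Nat.cast_nonneg _) (hF v))
    (fun v => mul_le_mul_of_nonneg_right (nb_le v) (hF v)) (hs.mul_left _)

open scoped Classical in
/-- **Divergence over the completely split places.** -/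
theorem split_diverge [IsGalois K L] (h : IsBaseChange α β) (hβ : AutomorphicGL3 β) {c : ℝ}
    (hc : c < 1 / 2 + 1 / (16 * (Module.finrank ℚ L : ℝ))) :
    ¬ Summable fun v : PL S => if SplitsIn L v.1 then small α v * (qq v.1 : ℝ) ^ (-c) else 0 := by
  intro hsum
  have hd' : (1 : ℝ) ≤ (Module.finrank ℚ L : ℝ) := by
    exact_mod_cast (Module.finrank_pos : 0 < Module.finrank ℚ L)
  have hpos : 0 < 1 / (16 * (Module.finrank ℚ L : ℝ)) := by positivity
  set c' : ℝ := max c (1 / 2 + 1 / (16 * (Module.finrank ℚ L : ℝ)) / 2) with hc'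
  have hlt : c' < 1 / 2 + 1 / (16 * (Module.finrank ℚ L : ℝ)) := max_lt hc (by linarith)
  have hgt : 1 / 2 < c' := lt_of_lt_of_le (by linarith) (le_max_right _ _)
  set F : PL S → ℝ := fun v => if SplitsIn L v.1 then small α v * (qq v.1 : ℝ) ^ (-c') else 0 with hF
  have hF0 : ∀ v, 0 ≤ F v := fun v => by
    rw [hF]
    simp only
    split_ifs
    · exact mul_nonneg (small_nonneg α v) (qq_rpow_nn _ _)
    · exact le_rfl
  have hFs : Summable F := by
    refine Summable.of_nonneg_of_le hF0 (fun v => ?_) hsum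
    rw [hF]
    simp only
    split_ifs
    · refine mul_le_mul_of_nonneg_left ?_ (small_nonneg α v)
      exact Real.rpow_le_rpow_of_exponent_le (one_lt_qq v.1).le (neg_le_neg (le_max_left _ _))
    · exact le_rfl
  have hGs : Summable fun v : PL S => (qq v.1 : ℝ) ^ (-(2 * c')) := summable_qq (by linarith)
  have h1 := (summable_dn h hF0).2 (summable_nb (L := L) hF0 hFs)
  have h2 := (summable_dn h (F := fun v : PL S => (qq v.1 : ℝ) ^ (-(2 * c'))) (fun v => qq_rpow_nn _ _)).2
    (summable_nb (L := L) (fun v => qq_rpow_nn _ _) hGs)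
  refine small_diverge hβ hlt (Summable.of_nonneg_of_le (fun w => mul_nonneg (small_nonneg β w) (qq_rpow_nn _ _))
    (fun w => ?_) (h1.add h2))
  by_cases hw : deg K w.1 = 1
  · have hsp := (deg_one_iff h w).1 hw
    rw [hF]
    simp only
    rw [if_pos hsp, small_eq h hw, rpow_one h hw]
    have := qq_rpow_nn (dn h w).1 (-(2 * c'))
    linarith
  · have a1 := rpow_two h hw (c := c') (by linarith)
    have a2 := small_le β w
    have a3 := small_nonneg β w
    have a4 := hF0 (dn h w)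
    have a5 := qq_rpow_nn w.1 (-c')
    nlinarith

open scoped Classical in
theorem split_diverge' [IsGalois K L] (h : IsBaseChange α β) (hβ : AutomorphicGL3 β) {c : ℝ}
    (hc : c < 1 / 2 + 1 / (16 * (Module.finrank ℚ L : ℝ))) :
    ¬ Summable fun v : {v : PL S // SplitsIn L v.1 ∧ ‖∑ i, α v i‖ < 1} => (qq v.1.1 : ℝ) ^ (-c) := by
  intro hs
  refine split_diverge h hβ hc ?_
  have h2 := (summable_subtype_iff_indicator (s := {v : PL S | SplitsIn L v.1 ∧ ‖∑ i, α v i‖ < 1})
    (f := fun v : PL S => (qq v.1 : ℝ) ^ (-c))).1 hs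
  refine Summable.of_nonneg_of_le (fun v => ?_) (fun v => ?_) h2
  · split_ifs
    · exact mul_nonneg (small_nonneg α v) (qq_rpow_nn _ _)
    · exact le_rfl
  have hp : 0 ≤ (qq v.1 : ℝ) ^ (-c) := qq_rpow_nn _ _
  by_cases hv : SplitsIn L v.1 ∧ ‖∑ i, α v i‖ < 1
  · rw [Set.indicator_of_mem (by exact hv), if_pos hv.1]
    exact mul_le_of_le_one_left hp (small_le α v)
  · rw [Set.indicator_of_notMem (by exact hv)]
    split_ifs with hsp
    · have : small α v = 0 := by
        unfold small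
        refine max_eq_left ?_
        have : ¬ ‖∑ i, α v i‖ < 1 := fun h3 => hv ⟨hsp, h3⟩
        push Not at this
        nlinarith
      rw [this, zero_mul]
    · exact le_rfl

/-- unitarity at the split places -/
theorem unitary_split (h : IsBaseChange α β) (hU : ∀ w, (∀ i, β w i ≠ 0) ∧
    Multiset.map (fun i => ((starRingEnd ℂ) (β w i))⁻¹) Finset.univ.val = Multiset.map (β w) Finset.univ.val)
    {v : PL S} (hv : SplitsIn L v.1) : (∀ i, α v i ≠ 0) ∧
    Multiset.map (fun i => ((starRingEnd ℂ) (α v i))⁻¹) Finset.univ.val =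
      Multiset.map (α v) Finset.univ.val := by
  obtain ⟨w, rfl⟩ := exists_above h hv
  have hw : deg K w.1 = 1 := deg_of_split hv w.1 rfl
  obtain ⟨h1, h2⟩ := hU w
  have e := eq_one h hw
  refine ⟨(forall_iff h hw (fun z => z ≠ 0)).1 h1, ?_⟩
  have e1 : ∀ f : Fin 3 → ℂ, Multiset.map (fun i => ((starRingEnd ℂ) (f i))⁻¹) Finset.univ.val =
      (Multiset.map f Finset.univ.val).map (fun z => ((starRingEnd ℂ) z)⁻¹) := fun f => by
    rw [Multiset.map_map]
    rfl
  rw [e1, ← e, ← e1, h2]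

open scoped Classical in
/-- comparison of a weight at the completely split places with `|a_v|² - 1` -/
theorem weight_split [IsGalois K L] (h : IsBaseChange α β) (hβ : CuspidalGL3 β) {f g : PL S → ℝ} (hf0 : ∀ v, 0 ≤ f v)
    (hg0 : ∀ v, 0 ≤ g v) (hg1 : ∀ v, g v ≤ 1)
    (hfg : ∀ v : PL S, SplitsIn L v.1 → f v - g v ≤ ‖∑ i, α v i‖ ^ 2 - 1) : ∃ C : ℝ, ∀ σ : ℝ, 1 < σ →
    (Summable fun v : PL S => if SplitsIn L v.1 then f v * (qq v.1 : ℝ) ^ (-σ) else 0) ∧
    ∑' v : PL S, (if SplitsIn L v.1 then f v * (qq v.1 : ℝ) ^ (-σ) else 0) ≤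
      ∑' v : PL S, (if SplitsIn L v.1 then g v * (qq v.1 : ℝ) ^ (-σ) else 0) + C := by
  have hn : (0 : ℝ) < (Module.finrank K L : ℝ) := by
    exact_mod_cast (Module.finrank_pos : 0 < Module.finrank K L)
  obtain ⟨C, hC⟩ := Pool.Agent.Y816.GL3T.weight_bound hβ
    (f := fun w => if deg K w.1 = 1 then f (dn h w) else 0)
    (g := fun w => if deg K w.1 = 1 then g (dn h w) else 1)
    (fun w => by
      split_ifs
      · exact hf0 _
      · exact le_rfl)
    (fun w => by
      split_ifs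
      · exact hg0 _
      · exact zero_le_one)
    (fun w => by
      split_ifs
      · exact hg1 _
      · exact le_rfl)
    (fun w => by
      split_ifs with hw
      · have h1 := hfg (dn h w) ((deg_one_iff h w).1 hw)
        have h2 := sum_eq h hw (fun z : ℂ => z)
        rw [h2]
        exact h1
      · have := sq_nonneg ‖∑ i, β w i‖
        linarith)
  refine ⟨C / (Module.finrank K L : ℝ) + ∑' v : PL S, (qq v.1 : ℝ) ^ (-(2 : ℝ)), fun σ hσ => ?_⟩
  obtain ⟨a1, a2⟩ := hC σ hσ
  set F : PL S → ℝ := fun v => if SplitsIn L v.1 then f v * (qq v.1 : ℝ) ^ (-σ) else 0 with hF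
  set G : PL S → ℝ := fun v => if SplitsIn L v.1 then g v * (qq v.1 : ℝ) ^ (-σ) else 0 with hG
  have hF0 : ∀ v, 0 ≤ F v := fun v => by
    rw [hF]
    simp only
    split_ifs
    · exact mul_nonneg (hf0 v) (qq_rpow_nn _ _)
    · exact le_rfl
  have hG0 : ∀ v, 0 ≤ G v := fun v => by
    rw [hG]
    simp only
    split_ifs
    · exact mul_nonneg (hg0 v) (qq_rpow_nn _ _)
    · exact le_rfl
  have eF : ∀ w : PL T, (if deg K w.1 = 1 then f (dn h w) else 0) * (qq w.1 : ℝ) ^ (-σ) = F (dn h w) := by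
    intro w
    rw [hF]
    simp only
    by_cases hw : deg K w.1 = 1
    · rw [if_pos hw, if_pos ((deg_one_iff h w).1 hw), rpow_one h hw]
    · rw [if_neg hw, if_neg (fun h3 => hw ((deg_one_iff h w).2 h3)), zero_mul]
  have nF : ∀ v : PL S, (nb L v : ℝ) * F v = (Module.finrank K L : ℝ) * F v := by
    intro v
    rw [hF]
    simp only
    by_cases hv : SplitsIn L v.1
    · rw [if_pos hv, nb_split hv]
    · rw [if_neg hv, mul_zero, mul_zero]
  have nG : ∀ v : PL S, (nb L v : ℝ) * G v = (Module.finrank K L : ℝ) * G v := by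
    intro v
    rw [hG]
    simp only
    by_cases hv : SplitsIn L v.1
    · rw [if_pos hv, nb_split hv]
    · rw [if_neg hv, mul_zero, mul_zero]
  simp_rw [eF] at a1 a2
  have b1 := (summable_dn h hF0).1 a1
  have b1' : Summable fun v : PL S => (Module.finrank K L : ℝ) * F v := b1.congr fun v => nF v
  have b2 : Summable F := (summable_mul_left_iff hn.ne').1 b1'
  refine ⟨b2, ?_⟩
  rw [tsum_dn h hF0, tsum_congr (fun v => nF v), tsum_mul_left] at a2
  -- the right-hand side
  have c1 : Summable G := by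
    refine Summable.of_nonneg_of_le hG0 (fun v => ?_) (summable_qq (S := S) hσ)
    rw [hG]
    simp only
    split_ifs
    · exact mul_le_of_le_one_left (qq_rpow_nn _ _) (hg1 v)
    · exact qq_rpow_nn _ _
  have c2 : Summable fun v : PL S => (qq v.1 : ℝ) ^ (-(2 * 1 : ℝ)) := summable_qq (by norm_num)
  have d1 := (summable_dn h hG0).2 (summable_nb (L := L) hG0 c1)
  have d2 := (summable_dn h (F := fun v : PL S => (qq v.1 : ℝ) ^ (-(2 * 1 : ℝ))) (fun v => qq_rpow_nn _ _)).2
    (summable_nb (L := L) (fun v => qq_rpow_nn _ _) c2)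
  have hle : ∀ w : PL T, (if deg K w.1 = 1 then g (dn h w) else 1) * (qq w.1 : ℝ) ^ (-σ) ≤
      G (dn h w) + (qq (dn h w).1 : ℝ) ^ (-(2 * 1 : ℝ)) := by
    intro w
    by_cases hw : deg K w.1 = 1
    · rw [if_pos hw, hG]
      simp only
      rw [if_pos ((deg_one_iff h w).1 hw), rpow_one h hw]
      have := qq_rpow_nn (dn h w).1 (-(2 * 1 : ℝ))
      linarith
    · rw [if_neg hw, one_mul]
      have e1 := rpow_two h hw (c := σ) (by linarith)
      have e2 : (qq (dn h w).1 : ℝ) ^ (-(2 * σ)) ≤ (qq (dn h w).1 : ℝ) ^ (-(2 * 1 : ℝ)) :=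
        Real.rpow_le_rpow_of_exponent_le (one_lt_qq _).le (by linarith)
      have e3 := hG0 (dn h w)
      linarith
  have hnn : ∀ w : PL T, 0 ≤ (if deg K w.1 = 1 then g (dn h w) else 1) * (qq w.1 : ℝ) ^ (-σ) := by
    intro w
    refine mul_nonneg ?_ (qq_rpow_nn _ _)
    split_ifs
    · exact hg0 _
    · exact zero_le_one
  have h5 := Summable.tsum_le_tsum hle (Summable.of_nonneg_of_le hnn hle (d1.add d2)) (d1.add d2)
  rw [d1.tsum_add d2, tsum_dn h hG0, tsum_congr (fun v => nG v), tsum_mul_left,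
    tsum_dn h (F := fun v : PL S => (qq v.1 : ℝ) ^ (-(2 * 1 : ℝ))) (fun v => qq_rpow_nn _ _)] at h5
  have h6 : ∑' v : PL S, (nb L v : ℝ) * (qq v.1 : ℝ) ^ (-(2 * 1 : ℝ)) ≤
      (Module.finrank K L : ℝ) * ∑' v : PL S, (qq v.1 : ℝ) ^ (-(2 * 1 : ℝ)) := by
    rw [← tsum_mul_left]
    exact Summable.tsum_le_tsum (fun v => mul_le_mul_of_nonneg_right (nb_le v) (qq_rpow_nn _ _))
      (summable_nb (fun v => qq_rpow_nn _ _) c2) (c2.mul_left _)
  have h7 : (Module.finrank K L : ℝ) * ∑' v : PL S, F v ≤ (Module.finrank K L : ℝ) *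
      (∑' v : PL S, G v + (C / (Module.finrank K L : ℝ) + ∑' v : PL S, (qq v.1 : ℝ) ^ (-(2 * 1 : ℝ)))) := by
    have e4 : (Module.finrank K L : ℝ) *
      (∑' v : PL S, G v + (C / (Module.finrank K L : ℝ) + ∑' v : PL S, (qq v.1 : ℝ) ^ (-(2 * 1 : ℝ)))) =
      (Module.finrank K L : ℝ) * ∑' v : PL S, G v + C + (Module.finrank K L : ℝ) *
        ∑' v : PL S, (qq v.1 : ℝ) ^ (-(2 * 1 : ℝ)) := by
      field_simp
      ring
    rw [e4]
    linarith
  have h8 := le_of_mul_le_mul_left h7 hn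
  rw [mul_one] at h8
  exact h8

end Q239.GS
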