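import Mathlib
import Pool.Agent.Q239.GS.Main

/-! Completely split places: the comparison at every scale. -/

set_option autoImplicit false

open NumberField IsDedekindDomain Filter Topology
open Pool.Agent.TH861.GL3
open Pool.Agent.TH949.TX (AdjointGL3)

namespace Q239.GS

variable {K L : Type*} [Field K] [NumberField K] [Field L] [NumberField L] [Algebra K L]
variable {S : Finset (HeightOneSpectrum (𝓞 K))} {T : Finset (HeightOneSpectrum (𝓞 L))}
variable {α : PL S → Fin 3 → ℂ} {β : PL T → Fin 3 → ℂ}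

theorem fin_le (S : Finset (HeightOneSpectrum (𝓞 K))) (x : ℝ) : {v : PL S | (qq v.1 : ℝ) ≤ x}.Finite := by
  have h := (finite_nm_le (K := K) ⌊x⌋₊).preimage (f := fun v : PL S => v.1) Subtype.val_injective.injOn
  refine h.subset fun v hv => ?_
  exact Nat.le_floor hv

/-- the number of places is polynomially bounded -/
theorem count_le (S : Finset (HeightOneSpectrum (𝓞 K))) {σ : ℝ} (hσ : 1 < σ) :
    ∃ C : ℝ, 0 ≤ C ∧ ∀ x : ℝ, 1 ≤ x → (({v : PL S | (qq v.1 : ℝ) ≤ x}.ncard : ℕ) : ℝ) ≤ C * x ^ σ := by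
  refine ⟨∑' v : PL S, (qq v.1 : ℝ) ^ (-σ), tsum_nonneg fun v => qq_rpow_nn _ _, fun x hx => ?_⟩
  have hx0 : 0 < x := by linarith
  have hf := fin_le S x
  have h1 := (summable_qq (S := S) hσ).sum_le_tsum hf.toFinset (fun v _ => qq_rpow_nn _ _)
  have h2 : ∑ _v ∈ hf.toFinset, x ^ (-σ) ≤ ∑ v ∈ hf.toFinset, (qq v.1 : ℝ) ^ (-σ) := by
    refine Finset.sum_le_sum fun v hv => ?_
    have hv' : (qq v.1 : ℝ) ≤ x := hf.mem_toFinset.1 hv
    exact Real.rpow_le_rpow_of_nonpos (qq_pos _) hv' (by linarith)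
  rw [Finset.sum_const, nsmul_eq_mul, ← Set.ncard_eq_toFinset_card _ hf] at h2
  have h3 := h2.trans h1
  rw [Real.rpow_neg hx0.le] at h3
  have h4 : 0 < x ^ σ := by positivity
  rwa [← div_eq_mul_inv, div_le_iff₀ h4] at h3

/-- the number of places above -/
theorem ncard_dn_le (h : IsBaseChange α β) {A : Set (PL T)} {B : Set (PL S)} (hB : B.Finite)
    (hAB : ∀ w ∈ A, dn h w ∈ B) : ((A.ncard : ℕ) : ℝ) ≤ (Module.finrank K L : ℝ) * ((B.ncard : ℕ) : ℝ) := by
  classical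
  have hA : A.Finite := by
    have : A ⊆ ⋃ v ∈ B, {w : PL T | dn h w = v} := by
      intro w hw
      simp only [Set.mem_iUnion]
      exact ⟨dn h w, hAB w hw, rfl⟩
    exact Set.Finite.subset (hB.biUnion fun v _ => Set.finite_coe_iff.1 (fib_finite h v)) this
  have h1 : hA.toFinset.card ≤ Module.finrank K L * hB.toFinset.card := by
    refine Finset.card_le_mul_card_image_of_maps_to (f := dn h) (fun w hw => ?_) _ (fun v _ => ?_)
    · exact hB.mem_toFinset.2 (hAB w (hA.mem_toFinset.1 hw))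
    · have hfin : ({w : PL T | dn h w = v}).Finite := Set.finite_coe_iff.1 (fib_finite h v)
      have h2 : (hA.toFinset.filter fun w => dn h w = v).card ≤ hfin.toFinset.card := by
        refine Finset.card_le_card fun w hw => ?_
        rw [Finset.mem_filter] at hw
        exact hfin.mem_toFinset.2 hw.2
      refine h2.trans ?_
      rw [← Set.ncard_eq_toFinset_card _ hfin]
      have h3 : ({w : PL T | dn h w = v}).ncard = nb L v := by
        rw [← fib_card h v, ← Nat.card_coe_set_eq]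
        rfl
      rw [h3]
      exact card_le v.1
  rw [Set.ncard_eq_toFinset_card _ hA, Set.ncard_eq_toFinset_card _ hB]
  exact_mod_cast h1

open scoped Classical in
/-- **The comparison at every scale.** -/
theorem scales_split [IsGalois K L] (h : IsBaseChange α β) (hβ : AdjointGL3 β) {ε : ℝ} (hε : 0 < ε) :
    ∀ᶠ X : ℝ in atTop, (∑' v : PL S, if SplitsIn L v.1 ∧ (qq v.1 : ℝ) ≤ X then ∑ i, (‖α v i‖ - 1) ^ 2 else 0) ≤
      X ^ ε * ((({v : PL S | SplitsIn L v.1 ∧ (qq v.1 : ℝ) ≤ X ^ (1 + ε) ∧ ∀ i, ‖α v i‖ = 1}.ncard : ℕ) : ℝ) +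
        X ^ (1 / 2 : ℝ)) := by
  set n : ℝ := (Module.finrank K L : ℝ) with hn
  have hn0 : 0 < n := by
    rw [hn]
    exact_mod_cast (Module.finrank_pos : 0 < Module.finrank K L)
  set η : ℝ := min ε 1 / 4 with hη
  have hη0 : 0 < η := by rw [hη]; positivity
  have hηε : η ≤ ε / 4 := by rw [hη]; have := min_le_left ε 1; linarith
  have hη1 : η ≤ 1 / 4 := by rw [hη]; have := min_le_right ε 1; linarith
  obtain ⟨C, hC0, hC⟩ := count_le S (σ := 1 + η) (by linarith)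
  have hlim : ∀ᶠ X : ℝ in atTop, C ≤ X ^ (η / 2) :=
    (tendsto_rpow_atTop (by positivity : 0 < η / 2)).eventually_ge_atTop C
  filter_upwards [Pool.Agent.Y816.GL3T.scales hβ hη0, hlim, eventually_ge_atTop 1] with X hX hXC hX1
  have hX0 : 0 < X := by linarith
  -- the left-hand side
  set F : PL S → ℝ := fun v => if SplitsIn L v.1 ∧ (qq v.1 : ℝ) ≤ X then ∑ i, (‖α v i‖ - 1) ^ 2 else 0 with hF
  have hF0 : ∀ v, 0 ≤ F v := fun v => by
    rw [hF]
    simp only
    split_ifs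
    · exact Finset.sum_nonneg fun i _ => sq_nonneg _
    · exact le_rfl
  have hle : ∀ w : PL T, F (dn h w) ≤ if (qq w.1 : ℝ) ≤ X then ∑ i, (‖β w i‖ - 1) ^ 2 else 0 := by
    intro w
    rw [hF]
    simp only
    by_cases hw : SplitsIn L (dn h w).1 ∧ (qq (dn h w).1 : ℝ) ≤ X
    · have hd := (deg_one_iff h w).2 hw.1
      have hq : (qq w.1 : ℝ) = (qq (dn h w).1 : ℝ) := by rw [qq_dn h w, hd, pow_one]
      rw [if_pos hw, hq, if_pos hw.2]
      have := sum_eq h hd (fun z : ℂ => (‖z‖ - 1) ^ 2)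
      rw [this]
    · rw [if_neg hw]
      split_ifs
      · exact Finset.sum_nonneg fun i _ => sq_nonneg _
      · exact le_rfl
  have hRs : Summable fun w : PL T => if (qq w.1 : ℝ) ≤ X then ∑ i, (‖β w i‖ - 1) ^ 2 else 0 := by
    refine summable_of_hasFiniteSupport ((fin_le T X).subset fun w hw => ?_)
    by_contra hcon
    exact hw (if_neg hcon)
  have hLs := Summable.of_nonneg_of_le (fun w => hF0 _) hle hRs
  have h1 := Summable.tsum_le_tsum hle hLs hRs
  have nF : ∀ v : PL S, (nb L v : ℝ) * F v = n * F v := by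
    intro v
    rw [hF]
    simp only
    by_cases hv : SplitsIn L v.1
    · rw [nb_split hv]
    · rw [if_neg (fun h3 => hv h3.1), mul_zero, mul_zero]
  rw [tsum_dn h hF0, tsum_congr nF, tsum_mul_left] at h1
  -- the right-hand side
  set A : Set (PL T) := {w : PL T | (qq w.1 : ℝ) ≤ X ^ (1 + η) ∧ ∀ i, ‖β w i‖ = 1} with hA
  set B₁ : Set (PL S) := {v : PL S | SplitsIn L v.1 ∧ (qq v.1 : ℝ) ≤ X ^ (1 + ε) ∧ ∀ i, ‖α v i‖ = 1} with hB₁
  set B₂ : Set (PL S) := {v : PL S | (qq v.1 : ℝ) ≤ X ^ ((1 + η) / 2)} with hB₂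
  have hB₁f : B₁.Finite := (fin_le S (X ^ (1 + ε))).subset fun v hv => hv.2.1
  have hB₂f : B₂.Finite := fin_le S _
  have hAB : ∀ w ∈ A, dn h w ∈ B₁ ∪ B₂ := by
    intro w hw
    by_cases hd : deg K w.1 = 1
    · left
      refine ⟨(deg_one_iff h w).1 hd, ?_, (forall_iff h hd (fun z => ‖z‖ = 1)).1 hw.2⟩
      have hq : (qq w.1 : ℝ) = (qq (dn h w).1 : ℝ) := by rw [qq_dn h w, hd, pow_one]
      rw [← hq]
      exact hw.1.trans (Real.rpow_le_rpow_of_exponent_le hX1 (by linarith))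
    · right
      show (qq (dn h w).1 : ℝ) ≤ X ^ ((1 + η) / 2)
      have h2 : (qq (dn h w).1 : ℝ) ^ 2 ≤ X ^ (1 + η) := by
        refine le_trans ?_ hw.1
        rw [qq_dn h w]
        exact pow_le_pow_right₀ (one_lt_qq _).le (two_le_deg hd)
      have h3 : X ^ (1 + η) = (X ^ ((1 + η) / 2)) ^ 2 := by
        rw [← Real.rpow_natCast, ← Real.rpow_mul hX0.le]
        congr 1
        push_cast
        ring
      rw [h3] at h2
      exact (pow_le_pow_iff_left₀ (qq_pos _).le (by positivity) (by norm_num)).1 h2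
  have h2 := ncard_dn_le h (hB₁f.union hB₂f) hAB
  have h3 : (((B₁ ∪ B₂).ncard : ℕ) : ℝ) ≤ ((B₁.ncard : ℕ) : ℝ) + ((B₂.ncard : ℕ) : ℝ) := by
    exact_mod_cast Set.ncard_union_le B₁ B₂
  have h4 : ((B₂.ncard : ℕ) : ℝ) ≤ C * (X ^ ((1 + η) / 2)) ^ (1 + η) :=
    hC _ (Real.one_le_rpow hX1 (by positivity))
  have h5 : C * (X ^ ((1 + η) / 2)) ^ (1 + η) ≤ X ^ (1 / 2 + 3 / 2 * η + η ^ 2 / 2) := by
    rw [← Real.rpow_mul hX0.le]
    calc C * X ^ ((1 + η) / 2 * (1 + η)) ≤ X ^ (η / 2) * X ^ ((1 + η) / 2 * (1 + η)) :=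
          mul_le_mul_of_nonneg_right hXC (by positivity)
      _ = X ^ (1 / 2 + 3 / 2 * η + η ^ 2 / 2) := by
          rw [← Real.rpow_add hX0]
          congr 1
          ring
  have hfin : n * ∑' v : PL S, F v ≤ n * (X ^ ε * (((B₁.ncard : ℕ) : ℝ) + X ^ (1 / 2 : ℝ))) := by
    have g1 : X ^ η ≤ X ^ ε := Real.rpow_le_rpow_of_exponent_le hX1 (by linarith)
    have g2 : X ^ η * X ^ (1 / 2 + 3 / 2 * η + η ^ 2 / 2) ≤ X ^ ε * X ^ (1 / 2 : ℝ) := by
      rw [← Real.rpow_add hX0, ← Real.rpow_add hX0]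
      refine Real.rpow_le_rpow_of_exponent_le hX1 ?_
      nlinarith
    have g3 : (0 : ℝ) ≤ ((B₁.ncard : ℕ) : ℝ) := Nat.cast_nonneg _
    have g4 : 0 < X ^ η := by positivity
    calc n * ∑' v : PL S, F v ≤ _ := h1
      _ ≤ X ^ η * ((A.ncard : ℕ) : ℝ) := hX
      _ ≤ X ^ η * (n * (((B₁.ncard : ℕ) : ℝ) + X ^ (1 / 2 + 3 / 2 * η + η ^ 2 / 2))) := by
          refine mul_le_mul_of_nonneg_left (h2.trans ?_) g4.le
          exact mul_le_mul_of_nonneg_left (by linarith) hn0.le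
      _ = n * (X ^ η * ((B₁.ncard : ℕ) : ℝ) + X ^ η * X ^ (1 / 2 + 3 / 2 * η + η ^ 2 / 2)) := by ring
      _ ≤ n * (X ^ ε * ((B₁.ncard : ℕ) : ℝ) + X ^ ε * X ^ (1 / 2 : ℝ)) := by
          refine mul_le_mul_of_nonneg_left ?_ hn0.le
          exact add_le_add (mul_le_mul_of_nonneg_right g1 g3) g2
      _ = _ := by ring
  exact le_of_mul_le_mul_left hfin hn0

end Q239.GS
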